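import Pool.Agent.Helper95.GB.CL.Chq

/-! # GB/CL/C1: the two ends of a chord 

`claim1`: strong induction on `pm f`.  Let `v = pv f`, `k` the branch at `v` of `m f` (`Ax.m_branch`), `k ≠ p f`.
By `R.br` (`i = k`, `j = p f`) `ok [] (m f) (p f) ↔ ok [] k (p f)`.
Case A, `¬ low v k`: `NL v k` and `KI n 0 k (p f)` (`p f` is not `NL`), `O.K` with `(0 : Multiset _).toList = []`.
Case B, `low v k`.  If `BI n f` use `O.B`.  Otherwise there is `f'` with `Dir f f'` and `pm f' < pm f`.
Let `i, j, e` be as in `Dir f f'`, `w = vt i`.  By `sep` `pos (mi e) < pm f`.  `anc_of_below`: `Anc (pv f) w`, `Anc (pv f') w`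
(`m f`, `m f'` are beyond `w` by `inb_bey`), and for `e = inl e0` `Anc (pv e0) w`, `Anc (pv e0) (pv f)`,
`Anc (pv e0) (pv f')` (`anc_anc`, from `hgt`), `bey (pv f) (m e0)` (`Anc.bey`).  By induction `ok [] (m f') (p f')` and
`ok [] (m e0) (p e0)` (if `e = inl e0`).  Chain:
`ok (m f') (p f')` →[r1] `ok (mi e) (p f')` →[chq] `ok (mi e) (m f')` →[br at w] `ok i j` →[br] `ok (mi e) (m f)`
→[chq] `ok (mi e) (p f)` →[r1] `ok (m f) (p f)`.   (`AllOK n ok 0` is trivial.)

`claim2`: by `R.sym` assume `pos i < pos j` (`a4`).  If there are `e, f` with `inb i (mi e)`, `inb j (mi f)`,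
`belowP (vt i) e`, `belowP (vt i) f`, `hgt e < hgt f`: then `f = inl f0`, and as above
`ok (m f0) (p f0)` [claim1] →[r1] `ok (mi e) (p f0)` →[chq, claim1 for e] `ok (mi e) (m f0)` →[br] `ok i j`.
Otherwise `QI n i j` holds, use `O.Q`.
-/

set_option autoImplicit false

namespace GB

open PD

/-- the generators are in the subgroup -/
structure GenOK {W C Z : Type} (P : PD W C Z) (n : ℕ)
    (ok : List (JJ W C Z) → JJ W C Z → JJ W C Z → Prop) : Prop where
  K : ∀ X i h, P.KI n X i h → ok X.toList i h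
  B : ∀ f, P.BI n f → ok [] (.m f) (.p f)
  Q : ∀ i j, P.QI n i j → ok [] i j

variable {W C Z : Type} {P : PD W C Z} {n : ℕ} {ok : List (JJ W C Z) → JJ W C Z → JJ W C Z → Prop}

/-- exchange of two branches, by a chord which goes lower than the other one -/
theorem Rules.chord_step (R : Rules P n ok) (h : P.Ax) (hn : 2 ≤ n) {i j : JJ W C Z}
    {e : Ch C Z} {f : C} (hv : P.vt i = P.vt j) (hp : P.pos i < P.pos j)
    (hie : P.inb i (mi e)) (hjf : P.inb j (.m f)) (hbe : P.belowP (P.vt i) e)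
    (hbf : P.belowP (P.vt i) (.inl f)) (hh : P.hgt e < P.hgt (.inl f))
    (he : ∀ e0, e = .inl e0 → ok [] (.m e0) (.p e0)) :
    ok [] i j ↔ ok [] (.m f) (.p f) := by
  have hX : ([] : List (JJ W C Z)).length + 2 ≤ n := by simpa using hn
  have hne : i ≠ j := by
    rintro rfl
    exact lt_irrefl _ hp
  have hbm : P.bey (P.vt i) (.m f) := by
    rw [hv]
    exact h.inb_bey hjf
  have hbme : P.bey (P.vt i) (mi e) := h.inb_bey hie
  have haf : P.Anc (P.pv f) (P.vt i) := h.anc_of_below hbf hbm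
  have h1 := R.br [] i j (mi e) (.m f) hX hv hne hie hjf
  have hall : AllOK n ok ([] : List (JJ W C Z)).length := by
    intro X x y hlt
    exact absurd hlt (Nat.not_lt_zero _)
  have h2 := R.chq h (X := []) hX hall e f (by
    intro e0 he0
    subst he0
    have ha0 : P.Anc (P.pv e0) (P.vt i) := h.anc_of_below hbe hbme
    have hlt : P.lo (P.pv e0) < P.lo (P.pv f) := by
      have h3 : P.lo (P.pv e0) + 1 < P.lo (P.pv f) + 1 := hh
      omega
    exact ⟨he e0 rfl, h.anc_anc ha0 haf hbm hlt, haf.bey hbme⟩)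
  have h3 := R.r1 h (X := []) hX (c := f) (v := P.vt i) (x := mi e) haf hbme hbm
  rw [← h1, h2, h3]

theorem Rules.claim1 (R : Rules P n ok) (h : P.Ax) (O : GenOK P n ok) (hn : 2 ≤ n) (f : C) :
    ok [] (.m f) (.p f) := by
  induction hm : P.pm f using Nat.strong_induction_on generalizing f with
  | _ N ih =>
    have hX : ([] : List (JJ W C Z)).length + 2 ≤ n := by simpa using hn
    obtain ⟨k, hk1, hk2, hk3⟩ := h.m_branch f
    by_cases hlow : P.low (P.pv f) k
    · by_cases hB : P.BI n f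
      · exact O.B f hB
      · have hex : ∃ f', P.Dir f f' ∧ P.pm f' < P.pm f := by
          by_contra hcon
          apply hB
          refine ⟨hn, ⟨k, hk1, hk2, hlow⟩, fun f' hf' => ?_⟩
          by_contra hlt
          exact hcon ⟨f', hf', not_le.mp hlt⟩
        obtain ⟨f', ⟨i, j, e, hv, hp, hie, hjf, hjf', hbe, hbf, hbf', hh, hh'⟩, hlt⟩ := hex
        have he : ∀ e0, e = .inl e0 → ok [] (.m e0) (.p e0) := by
          intro e0 he0
          subst he0
          have h3 : P.pos (.m e0) < P.pos (.m f) := h.sep hv hp hie hjf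
          have h4 : P.pm e0 < N := by
            rw [← hm]
            exact h3
          exact ih (P.pm e0) h4 e0 rfl
        have h1 := R.chord_step h hn hv hp hie hjf' hbe hbf' hh' he
        have h2 := R.chord_step h hn hv hp hie hjf hbe hbf hh he
        rw [← h2, h1]
        exact ih (P.pm f') (hm ▸ hlt) f' rfl
    · have hkp : k ≠ .p f := hk3 f
      have hvp : P.vt k = P.vt (.p f) := hk1
      have h1 := R.br [] k (.p f) (.m f) (.p f) hX hvp hkp hk2 (h.inb_self _)
      rw [h1]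
      have hKI : P.KI n 0 k (.p f) := by
        refine ⟨⟨rfl, hk3, ?_⟩, ?_, hvp.symm, hkp.symm, ?_, ?_⟩
        · rw [hk1]
          exact hlow
        · intro x hx
          exact absurd hx (Multiset.notMem_zero x)
        · rintro ⟨h2, -⟩
          exact h2.2.1 f rfl
        · simpa using hn
      have h2 := O.K 0 k (.p f) hKI
      rwa [Multiset.toList_zero] at h2

theorem Rules.claim2_aux (R : Rules P n ok) (h : P.Ax) (O : GenOK P n ok) (hn : 2 ≤ n)
    (i j : JJ W C Z) (hv : P.vt i = P.vt j) (hp : P.pos i < P.pos j) (hi : NP i) (hj : NP j)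
    (li : P.low (P.vt i) i) (lj : P.low (P.vt i) j) : ok [] i j := by
  by_cases hex : ∃ e f, P.inb i (mi e) ∧ P.inb j (mi f) ∧ P.belowP (P.vt i) e ∧
      P.belowP (P.vt i) f ∧ P.hgt e < P.hgt f
  · obtain ⟨e, f, hie, hjf, hbe, hbf, hh⟩ := hex
    cases f with
    | inl f0 =>
      exact (R.chord_step h hn hv hp hie hjf hbe hbf hh
        (fun e0 _ => R.claim1 h O hn e0)).2 (R.claim1 h O hn f0)
    | inr k =>
      exact absurd hh (Nat.not_lt_zero _)
  · refine O.Q i j ⟨hn, hv, hp, hi, hj, li, lj, ?_⟩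
    intro e f h1 h2 h3 h4 h5
    exact hex ⟨e, f, h1, h2, h3, h4, h5⟩

theorem Rules.claim2 (R : Rules P n ok) (h : P.Ax) (O : GenOK P n ok) (hn : 2 ≤ n)
    (i j : JJ W C Z) (hv : P.vt i = P.vt j) (hij : i ≠ j) (hi : NP i) (hj : NP j)
    (li : P.low (P.vt i) i) (lj : P.low (P.vt i) j) : ok [] i j := by
  rcases lt_trichotomy (P.pos i) (P.pos j) with hp | hp | hp
  · exact R.claim2_aux h O hn i j hv hp hi hj li lj
  · exact absurd (h.a4 hp) hij
  · refine R.sym _ _ _ (R.claim2_aux h O hn j i hv.symm hp hj hi ?_ ?_)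
    · rw [← hv]
      exact lj
    · rw [← hv]
      exact li

end GB
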