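import Pool.Agent.Helper95.GB.CL.C1

/-! # GB/CL/C3: all exchanges with empty prefix (stub, prove in place)

`claimN`: one of two different branches at a vertex is `NL`.  If `NL i`, and not (`NL j` and `pos j < pos i`): `O.K` for
`KI n 0 i j`; otherwise `NL j` and (not `NL i` or `pos j < pos i`): `O.K` for `KI n 0 j i`, `R.sym`.
(`(0 : Multiset _).toList = []`.)

`claim3`: `X = []`, `2 ≤ n`.  By `Ax.meet`, `R.triv`, `R.sym`, `R.br` it is enough to show `ok [] i j` for `i ≠ j` with
`vt i = vt j = v`.  If `NL v i` or `NL v j`: `claimN`.  Otherwise each of `i, j` is a plus end or (`NP` and low).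
(1) both `NP` and low: `claim2`.
(2) `i` is `NP` and low, `j = p c` (or conversely, `R.sym`): let `k` be the branch of `m c` at `v = pv c`.  If `k = i`:
`ok i (p c) ↔ ok (m c) (p c)` by `R.br`, `claim1`.  If `k ≠ i`: `ok [] i k` by `claimN` or `claim2` (`NP k`).  Let `e` be a
generalized chord from `i` to below `v` (`low`).  `ok (mi e) (m c)` by `R.br`; `chq e c` (for `e = inl e0`: `claim1`,
`Anc (pv e0) v` by `anc_of_below`, `bey v (m e0)`) gives `ok (mi e) (p c)`, so `ok i (p c)` by `R.br`.
(3) `i = p c`, `j = p c'`, `c ≠ c'`: let `k`, `k'` be the branches of `m c`, `m c'` at `v`.  By the cases above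
`ok k (p c')` and `ok (p c) k'`, so by `R.br` `ok (m c) (p c')` and `ok (p c) (m c')`.  `ok (m c) (m c')`: if `k ≠ k'` then
`ok k k'` by `claimN` or `claim2`.  If `k = k'`: `Ax.meet (m c) (m c')` (both are leaves, so they are not comparable) gives
`l ≠ l'` at a vertex `w`, `anc_of_meet`: `Anc v w`, so `belowP w (inl c)`, `belowP w (inl c')` (`below_of_anc`), `l` and `l'`
are low at `w` and `NP` (`np_mi`): `claim2`, `R.br`.  Now `R.ch [] (inl c) (inl c')` gives `ok (p c) (p c')`
(second form of the rule with the right roles: the fourth of the four statements; use the implication of `R.ch`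
whose conclusion is `okO ok X (pl e) (pl f)`).
-/

set_option autoImplicit false

namespace GB

open PD

variable {W C Z : Type} {P : PD W C Z} {n : ℕ} {ok : List (JJ W C Z) → JJ W C Z → JJ W C Z → Prop}

theorem Rules.claimN (R : Rules P n ok) (h : P.Ax) (O : GenOK P n ok) (hn : 2 ≤ n)
    (i j : JJ W C Z) (hv : P.vt i = P.vt j) (hij : i ≠ j)
    (hN : P.NL (P.vt i) i ∨ P.NL (P.vt i) j) : ok [] i j := by
  by_cases hi : P.NL (P.vt i) i ∧ ¬ (P.NL (P.vt i) j ∧ P.pos j < P.pos i)
  · have h1 := O.K 0 i j ⟨hi.1, fun x hx => absurd hx (Multiset.notMem_zero x), hv.symm,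
      hij.symm, hi.2, by simpa using hn⟩
    rwa [Multiset.toList_zero] at h1
  · have hj : P.NL (P.vt j) j := by
      rw [← hv]
      rcases hN with h1 | h1
      · by_contra h2
        exact hi ⟨h1, fun h3 => h2 h3.1⟩
      · exact h1
    have hc : ¬ (P.NL (P.vt j) i ∧ P.pos i < P.pos j) := by
      rintro ⟨h1, h2⟩
      apply hi
      rw [hv]
      exact ⟨h1, fun h3 => absurd h3.2 (not_lt.mpr h2.le)⟩
    have h1 := O.K 0 j i ⟨hj, fun x hx => absurd hx (Multiset.notMem_zero x), hv, hij, hc,
      by simpa using hn⟩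
    rw [Multiset.toList_zero] at h1
    exact R.sym _ _ _ h1

private theorem nl_or (v : Option W) (x : JJ W C Z) (hv : P.vt x = v) (hx : NP x)
    (hN : ¬ P.NL v x) : P.low v x := by
  by_contra hl
  exact hN ⟨hv, hx, hl⟩

private theorem s11 (R : Rules P n ok) (h : P.Ax) (O : GenOK P n ok) (hn : 2 ≤ n)
    (i j : JJ W C Z) (hv : P.vt i = P.vt j) (hij : i ≠ j) (hi : NP i) (hj : NP j) :
    ok [] i j := by
  by_cases hN : P.NL (P.vt i) i ∨ P.NL (P.vt i) j
  · exact R.claimN h O hn i j hv hij hN
  · have h1 : ¬ P.NL (P.vt i) i := fun h2 => hN (Or.inl h2)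
    have h2 : ¬ P.NL (P.vt i) j := fun h2 => hN (Or.inr h2)
    exact R.claim2 h O hn i j hv hij hi hj (nl_or _ i rfl hi h1) (nl_or _ j hv.symm hj h2)

private theorem s12 (R : Rules P n ok) (h : P.Ax) (O : GenOK P n ok) (hn : 2 ≤ n)
    (i : JJ W C Z) (c : C) (hv : P.vt i = P.pv c) (hi : NP i) : ok [] i (.p c) := by
  have hX : ([] : List (JJ W C Z)).length + 2 ≤ n := by simpa using hn
  have hall : AllOK n ok ([] : List (JJ W C Z)).length := by
    intro X x y hlt
    exact absurd hlt (Nat.not_lt_zero _)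
  have hij : i ≠ .p c := hi c
  have hv' : P.vt i = P.vt (.p c) := hv
  by_cases hN : P.NL (P.vt i) i
  · exact R.claimN h O hn i (.p c) hv' hij (Or.inl hN)
  · have hl := nl_or _ i rfl hi hN
    obtain ⟨k, hk1, hk2, hk3⟩ := h.m_branch c
    by_cases hki : k = i
    · subst hki
      exact (R.br [] k (.p c) (.m c) (.p c) hX hv' hij hk2 (h.inb_self _)).1
        (R.claim1 h O hn c)
    · obtain ⟨e, he1, he2⟩ := hl
      have h1 : ok [] i k := s11 R h O hn i k (hv.trans hk1.symm) (fun hh => hki hh.symm) hi hk3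
      have h2 : ok [] (mi e) (.m c) := (R.br [] i k (mi e) (.m c) hX (hv.trans hk1.symm)
        (fun hh => hki hh.symm) he1 hk2).2 h1
      have h3 := R.chq h (X := []) hX hall e c (by
        intro e0 he0
        subst he0
        have h4 : P.bey (P.vt i) (.m e0) := h.inb_bey he1
        have h5 := h.anc_of_below he2 h4
        rw [hv] at h4 h5
        exact ⟨R.claim1 h O hn e0, h5, h4⟩)
      exact (R.br [] i (.p c) (mi e) (.p c) hX hv' hij he1 (h.inb_self _)).1 (h3.1 h2)

private theorem s3 (R : Rules P n ok) (h : P.Ax) (O : GenOK P n ok) (hn : 2 ≤ n)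
    (c c' : C) (hv : P.pv c = P.pv c') (hcc : c ≠ c') : ok [] (.p c) (.p c') := by
  have hX : ([] : List (JJ W C Z)).length + 2 ≤ n := by simpa using hn
  have hall : AllOK n ok ([] : List (JJ W C Z)).length := by
    intro X x y hlt
    exact absurd hlt (Nat.not_lt_zero _)
  obtain ⟨k, hk1, hk2, hk3⟩ := h.m_branch c
  obtain ⟨k', hk1', hk2', hk3'⟩ := h.m_branch c'
  have h1 : ok [] (.m c) (.p c') :=
    (R.br [] k (.p c') (.m c) (.p c') hX (hk1.trans hv) (hk3 c') hk2 (h.inb_self _)).2
      (s12 R h O hn k c' (hk1.trans hv) hk3)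
  have h2 : ok [] (.p c) (.m c') :=
    (R.br [] (.p c) k' (.p c) (.m c') hX (hv.trans hk1'.symm) (fun hh => hk3' c hh.symm)
      (h.inb_self _) hk2').2
      (R.sym _ _ _ (s12 R h O hn k' c (hk1'.trans hv.symm) hk3'))
  have h3 : ok [] (.m c) (.m c') := by
    by_cases hkk : k = k'
    · subst hkk
      rcases h.meet (.m c) (.m c') with h4 | h4 | ⟨l, l', hl, hne, hx, hy⟩
      · have h5 := (h.inb_leaf (by simp)).1 h4
        injection h5 with h6
        exact absurd h6.symm hcc
      · have h5 := (h.inb_leaf (by simp)).1 h4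
        injection h5 with h6
        exact absurd h6 hcc
      · have h5 := h.anc_of_meet hk2 hk2' hl hne hx hy
        have h6 : P.Anc (P.pv c) (P.vt l) := by
          rw [← hk1]
          exact h5
        have h7 : P.Anc (P.pv c') (P.vt l) := by
          rw [← hk1']
          exact h5
        exact (R.br [] l l' (.m c) (.m c') hX hl hne hx hy).2
          (R.claim2 h O hn l l' hl hne (h.np_mi (e := .inl c) hx) (h.np_mi (e := .inl c') hy)
            ⟨.inl c, hx, h.below_of_anc h6⟩ ⟨.inl c', hy, h.below_of_anc h7⟩)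
    · have h4 : P.vt k = P.vt k' := hk1.trans (hv.trans hk1'.symm)
      exact (R.br [] k k' (.m c) (.m c') hX h4 hkk hk2 hk2').2 (s11 R h O hn k k' h4 hkk hk3 hk3')
  exact (R.ch [] (.inl c) (.inl c') hX hall).1 h3 h1 h2

theorem Rules.claim3 (R : Rules P n ok) (h : P.Ax) (O : GenOK P n ok) : AllOK n ok 1 := by
  intro X x y hlt hX
  have hX0 : X = [] := List.length_eq_zero_iff.mp (by omega)
  subst hX0
  have hn : 2 ≤ n := by simpa using hX
  have H : ∀ i j : JJ W C Z, P.vt i = P.vt j → i ≠ j → ok [] i j := by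
    intro i j hv hij
    by_cases hi : NP i
    · by_cases hj : NP j
      · exact s11 R h O hn i j hv hij hi hj
      · obtain ⟨c, hc⟩ := not_forall.mp hj
        have hjc : j = .p c := not_not.mp hc
        subst hjc
        exact s12 R h O hn i c hv hi
    · obtain ⟨c, hc⟩ := not_forall.mp hi
      have hic : i = .p c := not_not.mp hc
      subst hic
      by_cases hj : NP j
      · exact R.sym _ _ _ (s12 R h O hn j c hv.symm hj)
      · obtain ⟨c', hc'⟩ := not_forall.mp hj
        have hjc : j = .p c' := not_not.mp hc'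
        subst hjc
        exact s3 R h O hn c c' hv (fun hh => hij (by rw [hh]))
  rcases h.meet x y with h1 | h1 | ⟨i, j, hv, hne, hx, hy⟩
  · exact R.triv [] x y hX h1
  · exact R.sym _ _ _ (R.triv [] y x hX h1)
  · exact (R.br [] i j x y hX hv hne hx hy).2 (H i j hv hne)

end GB
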