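import Pool.Agent.Helper95.GB.CL.C1
import Pool.Agent.Helper95.GB.GE.Paths

/-! # GB/CL/C4: a prefix with an element of the low component (stub, prove in place)

Let `k ≥ 1`, `k + 2 ≤ n`, `AllOK n ok k`.

* `perm`: if `X`, `X'` are permutations of each other with `X.length = k` then `ok X x y ↔ ok X' x y`: `R.eq` and `fin_eq`.
* `last`: for lists `A ++ [x]`, `A ++ [x']` of length `k` with `ed x = ed x'` the same (`fin_eq`).
* `claim4`.  If `i = j`: `R.triv`, `inb_self`.  Write `X` as a permutation of `A ++ [z]` (`z ∈ X`), use `perm`.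
Case 1, `¬ bey v z`: `R.hex A i j z` (`A.length + 3 = k + 2 ≤ n`, `AllOK n ok (A.length + 1)`): it is enough to show
`ok (A ++ [i]) j z` and `ok (A ++ [j]) i z`.  For the first one use `Ax.meet j z`: comparable: `R.triv` (and `R.sym`);
otherwise `l ≠ l'` at a vertex `w`, `inb l j`, `inb l' z`: then `bey w j`, `bey w z` (`inb_bey`); `w ≠ v`; as `j` is beyond
`v` and `w`, `lo v ≤ lo w` would give `hi w ≤ hi v` (`bey_comp`), so `z` beyond `v`, a contradiction; so `lo w < lo v` and
`hv` (list `A ++ [i]` of length `k`) gives `ok (A ++ [i]) l l'`, then `R.br`.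
Case 2, there is `j0` at `v` with `inb j0 z`, `NP j0`, `low v j0`: there is a generalized chord `e` with `inb j0 (mi e)`,
`belowP v e`.  `R.pri` twice (`k = j0`): `ok (A ++ [z]) i j ↔ ok (A ++ [j0]) i j ↔ ok (A ++ [mi e]) i j`.  If `e = inl c`: by
`last` `↔ ok (A ++ [p c]) i j` and case 1 applies to `p c` (`belowP`).  If `e = inr k0`: `R.eq` (`fin_eq`: both
`fin (st n) (A ++ [z k0]) = fin (st n) A`) `↔ ok A i j`, true by `AllOK n ok k`.
Case 3, `j0 = p c` (so `z = p c` by `inb_leaf`) and `i0` at `v`, `inb i0 (m c)`, `low v i0`: by `last`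
`ok (A ++ [p c]) i j ↔ ok (A ++ [m c]) i j` and case 2 applies to `m c` with `j0 = i0` (`np_mi`).
-/

set_option autoImplicit false

namespace GB

open PD

variable {W C Z : Type} {P : PD W C Z} {n : ℕ} {ok : List (JJ W C Z) → JJ W C Z → JJ W C Z → Prop}

theorem Rules.perm (R : Rules P n ok) {k : ℕ} (hn : k + 2 ≤ n) (hall : AllOK n ok k)
    {X X' : List (JJ W C Z)} (hp : X.Perm X') (hX : X.length = k) (x y : JJ W C Z) :
    ok X x y ↔ ok X' x y := by
  have hX' : X'.length = k := by rw [← hp.length_eq, hX]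
  refine R.eq X X' k hX.le hX'.le (by omega) (by omega) hall ?_ x y
  rw [fin_eq n X (by omega), fin_eq n X' (by omega), hX, hX', (hp.map _).sum_eq]

theorem Rules.last (R : Rules P n ok) {k : ℕ} (hn : k + 2 ≤ n) (hall : AllOK n ok k)
    {A : List (JJ W C Z)} (hA : A.length + 1 = k) {z z' : JJ W C Z}
    (hz : (ed z : EE W C) = ed z') (x y : JJ W C Z) :
    ok (A ++ [z]) x y ↔ ok (A ++ [z']) x y := by
  have h1 : (A ++ [z]).length = k := by simp [hA]
  have h2 : (A ++ [z']).length = k := by simp [hA]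
  refine R.eq _ _ k h1.le h2.le (by omega) (by omega) hall ?_ x y
  rw [fin_eq n _ (by omega), fin_eq n _ (by omega), h1, h2]
  simp only [List.map_append, List.map_cons, List.map_nil, hz]

private theorem Rules.case1 (R : Rules P n ok) (h : P.Ax) {k : ℕ} (hn : k + 2 ≤ n)
    (hall : AllOK n ok k) (v : Option W)
    (hv : ∀ X i j, X.length = k → P.vt i = P.vt j → P.lo (P.vt i) < P.lo v → ok X i j)
    {A : List (JJ W C Z)} (hA : A.length + 1 = k) {z : JJ W C Z} (hz : ¬ P.bey v z)
    {i j : JJ W C Z} (hi : P.vt i = v) (hj : P.vt j = v) : ok (A ++ [z]) i j := by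
  have key : ∀ i j : JJ W C Z, P.vt j = v → ok (A ++ [i]) j z := by
    intro i j hj
    have hl : (A ++ [i]).length = k := by simp [hA]
    rcases h.meet j z with h1 | h1 | ⟨l, l', h1, h2, h3, h4⟩
    · exact R.triv _ _ _ (by omega) h1
    · exact R.sym _ _ _ (R.triv _ _ _ (by omega) h1)
    · refine (R.br _ l l' j z (by omega) h1 h2 h3 h4).2 (hv _ l l' hl h1 ?_)
      by_contra hlt
      have hle : P.lo v ≤ P.lo (P.vt l) := not_lt.1 hlt
      have b1 : P.bey (P.vt l) j := h.inb_bey h3
      have b2 : P.bey (P.vt l) z := by rw [h1]; exact h.inb_bey h4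
      have b3 : P.bey v j := by rw [← hj]; exact h.a1 j
      have b4 := h.bey_comp b1 b3 hle
      exact hz ⟨hle.trans_lt b2.1, b2.2.trans_le b4⟩
  refine R.hex A i j z (by omega) (by rw [hA]; exact hall) (key i j hj) (key j i hi)

private theorem Rules.case2 (R : Rules P n ok) (h : P.Ax) {k : ℕ} (hn : k + 2 ≤ n)
    (hall : AllOK n ok k) (v : Option W)
    (hv : ∀ X i j, X.length = k → P.vt i = P.vt j → P.lo (P.vt i) < P.lo v → ok X i j)
    {A : List (JJ W C Z)} (hA : A.length + 1 = k) {z j0 : JJ W C Z} (h0 : P.vt j0 = v)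
    (hz : P.inb j0 z) (hlow : P.low v j0)
    {i j : JJ W C Z} (hi : P.vt i = v) (hj : P.vt j = v) (hij : i ≠ j) :
    ok (A ++ [z]) i j := by
  obtain ⟨e, he, hb⟩ := hlow
  have hvt : P.vt i = P.vt j := by rw [hi, hj]
  have h0i : P.vt j0 = P.vt i := by rw [h0, hi]
  rw [R.pri A i j j0 z (by omega) hvt hij h0i hz,
    ← R.pri A i j j0 (mi e) (by omega) hvt hij h0i he]
  rcases e with c | k0
  · rw [R.last hn hall hA (z := mi (.inl c)) (z' := .p c) rfl]
    exact R.case1 h hn hall v hv hA (hb (.p c) rfl) hi hj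
  · have h1 : (A ++ [(mi (.inr k0) : JJ W C Z)]).length = k := by simp [hA]
    rw [R.eq (A ++ [mi (.inr k0)]) A k h1.le (by omega) (by omega) (by omega) hall ?_]
    · exact hall A i j (by omega) (by omega)
    · rw [fin_eq n _ (by omega), fin_eq n _ (by omega), h1]
      simp only [List.map_append, List.map_cons, List.map_nil, List.sum_append,
        List.sum_cons, List.sum_nil, add_zero]
      have h2 : n - A.length = (n - k) + 1 := by omega
      rw [h2, add_smul, one_smul]
      have h3 : (ed (mi (.inr k0) : JJ W C Z) : EE W C) = EE.r := rfl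
      rw [h3]
      abel

theorem Rules.claim4 (R : Rules P n ok) (h : P.Ax) {k : ℕ} (hn : k + 2 ≤ n)
    (hall : AllOK n ok k) (v : Option W)
    (hv : ∀ X i j, X.length = k → P.vt i = P.vt j → P.lo (P.vt i) < P.lo v → ok X i j)
    (X : List (JJ W C Z)) (hX : X.length = k) (z : JJ W C Z) (hz : z ∈ X) (hl : P.LowC v z)
    (i j : JJ W C Z) (hi : P.vt i = v) (hj : P.vt j = v) : ok X i j := by
  by_cases hij : i = j
  · subst hij
    exact R.triv _ _ _ (by omega) (h.inb_self i)
  obtain ⟨B, C', rfl⟩ := List.append_of_mem hz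
  have hp : (B ++ z :: C').Perm ((B ++ C') ++ [z]) := by
    rw [List.append_assoc]
    refine List.Perm.append_left B ?_
    exact (List.perm_append_singleton z C').symm
  rw [R.perm hn hall hp hX]
  have hA : (B ++ C').length + 1 = k := by
    rw [← hX]; simp only [List.length_append, List.length_cons]; omega
  rcases hl with hl | ⟨j0, h0, h1, (⟨_, h3⟩ | ⟨c, i0, h4, h5, h6, h7⟩)⟩
  · exact R.case1 h hn hall v hv hA hl hi hj
  · exact R.case2 h hn hall v hv hA h0 h1 h3 hi hj hij
  · have h8 : z = .p c := by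
      rw [← h4]
      refine (h.inb_leaf ?_).1 h1
      intro a; rw [h4]; simp
    rw [h8, R.last hn hall hA (z := .p c) (z' := .m c) rfl]
    exact R.case2 h hn hall v hv hA h5 h6 h7 hi hj hij

end GB
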