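import Pool.Agent.Helper95.GB.CL.C4

/-! # GB/CL/C5: a prefix without elements of the low component (stub, prove in place)

Let `k ≥ 1`, `k + 2 ≤ n`, `AllOK n ok k`; all pairs below are at the vertex `v`.

* `repl`: if `CompN v r z`, `A.length + 1 = k`, `i ≠ j` at `v` then `ok (A ++ [z]) i j ↔ ok (A ++ [r]) i j`.  Either `inb r z`
and `R.pri` (`k = r`) does it, or `z = p c`, `inb r (m c)`: `last` (to `m c`), then `R.pri`.
* `repAll`: if `rep z` is such that `CompN v (rep z) z` for all `z ∈ X`, `X.length = k`, `i ≠ j` at `v`, then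
`ok X i j ↔ ok (X.map rep) i j`: show `ok (A ++ B) i j ↔ ok (B ++ A.map rep) i j` for `A.length + B.length = k`,
by induction on `A`: `z :: A ++ B` is a permutation of `(A ++ B) ++ [z]` (`perm`), `repl` to `(A ++ B) ++ [rep z]`, which is
`A ++ (B ++ [rep z])`, induction gives `(B ++ [rep z]) ++ A.map rep`.
* `LA`: `Y` a list of length `k` of `NL v` elements, `r` with `NL v r` and `pos r ≤ pos y` for all `y ∈ Y`, `h'` at `v`.
Then `ok Y r h'`.  `h' = r`: `R.triv`.  If `NL v h'` and `pos h' < pos r` then `KI n (Y : Multiset _) h' r`, otherwise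
`KI n (Y : Multiset _) r h'`; `O.K` and `perm` (`(↑Y : Multiset _).toList` is a permutation of `Y`), `R.sym`.
* `claimB`: `Y'` a list of length `k - 1` of `NL v` elements, `i0` with `NL v i0`, `pos i0 ≤ pos y` for all `y ∈ Y'`,
`x ≠ y` at `v`.  Then `ok (Y' ++ [x]) y i0`.  (If `y = i0`: `R.triv`.)
`LowC v x`: `claim4`.  Otherwise (`comp_cases`) `CompN v r x` and by `repl` we need `ok (Y' ++ [r]) y i0`.
If `pos i0 ≤ pos r`: `LA` with `Y = Y' ++ [r]` and `i0`.
If `pos r < pos i0`: `R.hex Y' y i0 r`: need `ok (Y' ++ [y]) i0 r` and `ok (Y' ++ [i0]) y r`.  The second: `LA` with `r`.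
The first: `LowC v y`: `claim4`; otherwise `CompN v r' y`, `repl`: need `ok (Y' ++ [r']) i0 r` (if `i0 = r` ... excluded).
If `pos r ≤ pos r'`: `LA` with `r`.  If `pos r' < pos r`: `R.hex Y' i0 r r'`: need `ok (Y' ++ [i0]) r r'` and
`ok (Y' ++ [r]) i0 r'`, both `LA` with `r'` (and `R.sym`).
* `claim5`: `i = j`: `R.triv`.  By `repAll` (choose `rep` by `comp_cases`) we may assume that all elements of `X` are
`NL v`.  `X ≠ []`; let `i0` be an element of smallest position, `X` is a permutation of `Y' ++ [i0]`; `R.hex Y' i j i0`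
with `claimB` for (`x = i`, `y = j`) and (`x = j`, `y = i`).
-/

set_option autoImplicit false

namespace GB

open PD

variable {W C Z : Type} {P : PD W C Z} {n : ℕ} {ok : List (JJ W C Z) → JJ W C Z → JJ W C Z → Prop}

theorem Rules.repl (R : Rules P n ok) (h : P.Ax) {k : ℕ} (hn : k + 2 ≤ n)
    (hall : AllOK n ok k) {v : Option W} {A : List (JJ W C Z)} (hA : A.length + 1 = k)
    {r z : JJ W C Z} (hz : P.CompN v r z) {i j : JJ W C Z} (hi : P.vt i = v) (hj : P.vt j = v)
    (hij : i ≠ j) : ok (A ++ [z]) i j ↔ ok (A ++ [r]) i j := by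
  obtain ⟨hN, hz⟩ := hz
  have hr : P.vt r = P.vt i := hN.1.trans hi.symm
  rcases hz with hz | ⟨c, hc, -, hm⟩
  · exact R.pri A i j r z (by omega) (hi.trans hj.symm) hij hr hz
  · have h1 := R.last hn hall hA (z := z) (z' := .m c) (by rw [hc]; rfl) i j
    exact h1.trans (R.pri A i j r (.m c) (by omega) (hi.trans hj.symm) hij hr hm)

private theorem C5_repAux (R : Rules P n ok) (h : P.Ax) {k : ℕ} (hn : k + 2 ≤ n)
    (hall : AllOK n ok k) {v : Option W} {rep : JJ W C Z → JJ W C Z} {i j : JJ W C Z}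
    (hi : P.vt i = v) (hj : P.vt j = v) (hij : i ≠ j) (A : List (JJ W C Z)) :
    ∀ B : List (JJ W C Z), A.length + B.length = k → (∀ z ∈ A, P.CompN v (rep z) z) →
      (ok (A ++ B) i j ↔ ok (B ++ A.map rep) i j) := by
  induction A with
  | nil =>
    intro B _ _
    simp
  | cons z A ih =>
    intro B hB hA
    have hlen : (A ++ B).length + 1 = k := by
      rw [List.length_append]
      rw [List.length_cons] at hB
      omega
    have h1 : (z :: A ++ B).Perm ((A ++ B) ++ [z]) := by
      rw [List.cons_append]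
      exact (List.perm_append_singleton z (A ++ B)).symm
    have h2 := R.perm hn hall h1 (by rw [List.length_append, List.length_cons]; rw [List.length_cons] at hB; omega) i j
    have h3 := R.repl h hn hall hlen (hA z List.mem_cons_self) hi hj hij
    have h4 := ih (B ++ [rep z]) (by
      rw [List.length_append, List.length_singleton]
      rw [List.length_cons] at hB
      omega) (fun y hy => hA y (List.mem_cons_of_mem _ hy))
    rw [h2, h3, List.append_assoc, h4]
    simp

private theorem C5_repAll (R : Rules P n ok) (h : P.Ax) {k : ℕ} (hn : k + 2 ≤ n)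
    (hall : AllOK n ok k) {v : Option W} {rep : JJ W C Z → JJ W C Z} {i j : JJ W C Z}
    (hi : P.vt i = v) (hj : P.vt j = v) (hij : i ≠ j) {X : List (JJ W C Z)}
    (hX : X.length = k) (hr : ∀ z ∈ X, P.CompN v (rep z) z) :
    ok X i j ↔ ok (X.map rep) i j := by
  have h1 := C5_repAux R h hn hall hi hj hij X [] (by simpa using hX) hr
  simpa using h1

theorem Rules.LA (R : Rules P n ok) (h : P.Ax) (O : GenOK P n ok) {k : ℕ} (hn : k + 2 ≤ n)
    (hall : AllOK n ok k) {v : Option W} {Y : List (JJ W C Z)} (hY : Y.length = k)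
    (hY' : ∀ y ∈ Y, P.NL v y) {r : JJ W C Z} (hr : P.NL v r) (hr' : ∀ y ∈ Y, P.pos r ≤ P.pos y)
    {h' : JJ W C Z} (hh : P.vt h' = v) : ok Y r h' := by
  have hp : ((Y : Multiset (JJ W C Z)).toList).Perm Y :=
    Multiset.coe_eq_coe.1 (Multiset.coe_toList _)
  have hlen : ((Y : Multiset (JJ W C Z)).toList).length = k := by
    rw [hp.length_eq, hY]
  have hcard : (Y : Multiset (JJ W C Z)).card + 2 ≤ n := by
    rw [Multiset.coe_card, hY]
    exact hn
  by_cases heq : h' = r
  · rw [heq]
    exact R.triv Y r r (by rw [hY]; exact hn) (h.inb_self r)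
  · by_cases hN : P.NL v h' ∧ P.pos h' < P.pos r
    · have hK : P.KI n (Y : Multiset (JJ W C Z)) h' r := by
        refine ⟨?_, ?_, ?_, ?_, ?_, hcard⟩
        · rw [hh]
          exact hN.1
        · intro x hx
          rw [Multiset.mem_coe] at hx
          rw [hh]
          exact ⟨hY' x hx, hN.2.le.trans (hr' x hx)⟩
        · rw [hh]
          exact hr.1
        · exact fun hc => heq hc.symm
        · rintro ⟨-, h2⟩
          exact absurd h2 (not_lt.2 hN.2.le)
      exact R.sym _ _ _ ((R.perm hn hall hp hlen h' r).1 (O.K _ _ _ hK))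
    · have hK : P.KI n (Y : Multiset (JJ W C Z)) r h' := by
        refine ⟨?_, ?_, ?_, heq, ?_, hcard⟩
        · rw [hr.1]
          exact hr
        · intro x hx
          rw [Multiset.mem_coe] at hx
          rw [hr.1]
          exact ⟨hY' x hx, hr' x hx⟩
        · rw [hh]
          exact hr.1.symm
        · rw [hr.1]
          exact hN
      exact (R.perm hn hall hp hlen r h').1 (O.K _ _ _ hK)

private theorem C5_claimB (R : Rules P n ok) (h : P.Ax) (O : GenOK P n ok) {k : ℕ}
    (hn : k + 2 ≤ n) (hall : AllOK n ok k) (v : Option W)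
    (hv : ∀ X i j, X.length = k → P.vt i = P.vt j → P.lo (P.vt i) < P.lo v → ok X i j)
    {Y : List (JJ W C Z)} (hY : Y.length + 1 = k) (hY' : ∀ y ∈ Y, P.NL v y) {i0 : JJ W C Z}
    (h0 : P.NL v i0) (h0' : ∀ y ∈ Y, P.pos i0 ≤ P.pos y) {x y : JJ W C Z} (hx : P.vt x = v)
    (hy : P.vt y = v) : ok (Y ++ [x]) y i0 := by
  have hlen : ∀ z : JJ W C Z, (Y ++ [z]).length = k := by
    intro z
    rw [List.length_append, List.length_singleton]
    exact hY
  have hmem : ∀ z : JJ W C Z, z ∈ Y ++ [z] := fun z => by simp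
  have hNL : ∀ z : JJ W C Z, P.NL v z → ∀ w ∈ Y ++ [z], P.NL v w := by
    intro z hz w hw
    rw [List.mem_append, List.mem_singleton] at hw
    rcases hw with hw | rfl
    · exact hY' w hw
    · exact hz
  have hpos : ∀ a z : JJ W C Z, (∀ w ∈ Y, P.pos a ≤ P.pos w) → P.pos a ≤ P.pos z →
      ∀ w ∈ Y ++ [z], P.pos a ≤ P.pos w := by
    intro a z ha hz w hw
    rw [List.mem_append, List.mem_singleton] at hw
    rcases hw with hw | rfl
    · exact ha w hw
    · exact hz
  have hall' : AllOK n ok (Y.length + 1) := by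
    rw [hY]
    exact hall
  by_cases hyi : y = i0
  · rw [hyi]
    exact R.triv _ _ _ (by rw [hlen]; exact hn) (h.inb_self i0)
  rcases h.comp_cases v x with hl | ⟨r, hr⟩
  · exact R.claim4 h hn hall v hv _ (hlen x) x (hmem x) hl y i0 hy h0.1
  rw [R.repl h hn hall hY hr hy h0.1 hyi]
  have hrN : P.NL v r := hr.1
  rcases le_or_gt (P.pos i0) (P.pos r) with h1 | h1
  · exact R.sym _ _ _ (R.LA h O hn hall (hlen r) (hNL r hrN) h0 (hpos i0 r h0' h1) hy)
  · have hr0 : ∀ w ∈ Y, P.pos r ≤ P.pos w := fun w hw => h1.le.trans (h0' w hw)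
    refine R.hex Y y i0 r (by omega) hall' ?_ ?_
    · have hir : i0 ≠ r := by
        rintro rfl
        exact lt_irrefl _ h1
      rcases h.comp_cases v y with hl | ⟨r', hr'⟩
      · exact R.claim4 h hn hall v hv _ (hlen y) y (hmem y) hl i0 r h0.1 hrN.1
      rw [R.repl h hn hall hY hr' h0.1 hrN.1 hir]
      have hrN' : P.NL v r' := hr'.1
      rcases le_or_gt (P.pos r) (P.pos r') with h2 | h2
      · exact R.sym _ _ _ (R.LA h O hn hall (hlen r') (hNL r' hrN') hrN (hpos r r' hr0 h2) h0.1)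
      · have hr0' : ∀ w ∈ Y, P.pos r' ≤ P.pos w := fun w hw => h2.le.trans (hr0 w hw)
        refine R.hex Y i0 r r' (by omega) hall' ?_ ?_
        · exact R.sym _ _ _ (R.LA h O hn hall (hlen i0) (hNL i0 h0) hrN'
            (hpos r' i0 hr0' (h2.le.trans h1.le)) hrN.1)
        · exact R.sym _ _ _ (R.LA h O hn hall (hlen r) (hNL r hrN) hrN'
            (hpos r' r hr0' h2.le) h0.1)
    · exact R.sym _ _ _ (R.LA h O hn hall (hlen i0) (hNL i0 h0) hrN (hpos r i0 hr0 h1.le) hy)

theorem Rules.claim5 (R : Rules P n ok) (h : P.Ax) (O : GenOK P n ok) {k : ℕ} (hk : 1 ≤ k)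
    (hn : k + 2 ≤ n) (hall : AllOK n ok k) (v : Option W)
    (hv : ∀ X i j, X.length = k → P.vt i = P.vt j → P.lo (P.vt i) < P.lo v → ok X i j)
    (X : List (JJ W C Z)) (hX : X.length = k) (hl : ∀ z ∈ X, ¬ P.LowC v z)
    (i j : JJ W C Z) (hi : P.vt i = v) (hj : P.vt j = v) : ok X i j := by
  classical
  by_cases hij : i = j
  · rw [hij]
    exact R.triv _ _ _ (by rw [hX]; exact hn) (h.inb_self j)
  have hrep : ∀ z : JJ W C Z, ∃ r, ¬ P.LowC v z → P.CompN v r z := by
    intro z
    rcases h.comp_cases v z with h1 | ⟨r, hr⟩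
    · exact ⟨z, fun hc => absurd h1 hc⟩
    · exact ⟨r, fun _ => hr⟩
  choose rep hrep using hrep
  have hrepX : ∀ z ∈ X, P.CompN v (rep z) z := fun z hz => hrep z (hl z hz)
  rw [C5_repAll R h hn hall hi hj hij hX hrepX]
  set X' := X.map rep with hX'
  have hlen' : X'.length = k := by
    rw [hX', List.length_map, hX]
  have hNL' : ∀ y ∈ X', P.NL v y := by
    intro y hy
    rw [hX', List.mem_map] at hy
    obtain ⟨z, hz, rfl⟩ := hy
    exact (hrepX z hz).1
  have hne : ({x | x ∈ X'} : Set (JJ W C Z)).Nonempty := by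
    cases hc : X' with
    | nil =>
      rw [hc] at hlen'
      simp at hlen'
      omega
    | cons a l => exact ⟨a, by simp⟩
  obtain ⟨i0, hi0, hmin⟩ := Set.exists_min_image {x | x ∈ X'} P.pos (List.finite_toSet X') hne
  obtain ⟨s, t, hst⟩ := List.append_of_mem (show i0 ∈ X' from hi0)
  have hperm : X'.Perm ((s ++ t) ++ [i0]) := by
    rw [hst]
    exact List.perm_middle.trans (List.perm_append_singleton i0 (s ++ t)).symm
  have hsub : ∀ y ∈ s ++ t, y ∈ X' := by
    intro y hy
    rw [hst]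
    rw [List.mem_append] at hy ⊢
    rcases hy with hy | hy
    · exact Or.inl hy
    · exact Or.inr (List.mem_cons_of_mem _ hy)
  have hlenY : (s ++ t).length + 1 = k := by
    have h1 := hperm.length_eq
    rw [List.length_append, List.length_singleton, hlen'] at h1
    exact h1.symm
  rw [R.perm hn hall hperm hlen' i j]
  have hY' : ∀ y ∈ s ++ t, P.NL v y := fun y hy => hNL' y (hsub y hy)
  have h0 : P.NL v i0 := hNL' i0 hi0
  have h0' : ∀ y ∈ s ++ t, P.pos i0 ≤ P.pos y := fun y hy => hmin y (hsub y hy)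
  refine R.hex (s ++ t) i j i0 (by omega) (by rw [hlenY]; exact hall) ?_ ?_
  · exact C5_claimB R h O hn hall v hv hlenY hY' h0 h0' hi hj
  · exact C5_claimB R h O hn hall v hv hlenY hY' h0 h0' hj hi

end GB
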