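import Pool.Agent.Helper95.GB.CL.C3
import Pool.Agent.Helper95.GB.CL.C5
import Pool.Agent.Helper95.GB.GE.RulesOf
import Pool.Agent.Helper95.GB.GE.Gen

/-! # GB/CL/C6: the closure theorem and the generators (stub, prove in place)

`claim6`: show `AllOK n ok k` by induction on `k`: `k = 0` trivial, `k = 1` is `claim3`.  Step from `k ≥ 1` to `k + 1`: let
`X.length < k + 1`, `X.length + 2 ≤ n`.  If `X.length < k` done.  So `X.length = k`, `k + 2 ≤ n`.  First, by strong
induction on `lo v`: for all lists `X` of length `k` and `i, j` at `v`: `ok X i j`, by `claim4` (if some `z ∈ X` has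
`LowC v z`) or `claim5`.  Then for arbitrary `x, y`: `Ax.meet`, `R.triv`, `R.sym`, `R.br`.

`generates`: let `H` be the closure.  `ht`: `P.Eqv D.g n H [mi e] (plL e)` is `val (tw n (.e e)) ∈ H` (`Cx.val_append`,
`Cx.val_rev`; `rv w = P.dg.cx.rev w` by `rfl`).  `R = h.rules_of D.g D.sq n H ht`.  `GenOK`: `okH D.g n H X i h` is
`val (rn (X ++ [i,h])) * (val (rn (X ++ [h,i])))⁻¹ ∈ H`, which is the value of `tw n (.k ..)`, `tw n (.b ..)`, `tw n (.q ..)`
(`[] ++ l = l`).  `claim6` and `Ax.gen`.
-/

set_option autoImplicit false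

namespace GB

open PD

theorem Rules.claim6 {W C Z : Type} {P : PD W C Z} {n : ℕ}
    {ok : List (JJ W C Z) → JJ W C Z → JJ W C Z → Prop} (R : Rules P n ok) (h : P.Ax)
    (O : GenOK P n ok) : AllOK n ok n := by
  have main : ∀ k, AllOK n ok k := by
    intro k
    induction k with
    | zero =>
      intro X x y h1 _
      exact absurd h1 (Nat.not_lt_zero _)
    | succ k ih =>
      by_cases hk : k = 0
      · subst hk
        exact R.claim3 h O
      intro X x y h1 h2
      by_cases h3 : X.length < k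
      · exact ih X x y h3 h2
      have hX : X.length = k := by omega
      have hn : k + 2 ≤ n := by omega
      have key : ∀ N : ℕ, ∀ v : Option W, P.lo v = N → ∀ (X : List (JJ W C Z)) (i j : JJ W C Z),
          X.length = k → P.vt i = v → P.vt j = v → ok X i j := by
        intro N
        induction N using Nat.strong_induction_on with
        | _ N ihN =>
          intro v hv X i j hX hi hj
          have hv' : ∀ (X : List (JJ W C Z)) (i j : JJ W C Z), X.length = k →
              P.vt i = P.vt j → P.lo (P.vt i) < P.lo v → ok X i j := by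
            intro X i j hX hij hlt
            exact ihN (P.lo (P.vt i)) (by omega) (P.vt i) rfl X i j hX rfl hij.symm
          by_cases hz : ∃ z ∈ X, P.LowC v z
          · obtain ⟨z, hz1, hz2⟩ := hz
            exact R.claim4 h hn ih v hv' X hX z hz1 hz2 i j hi hj
          · exact R.claim5 h O (by omega) hn ih v hv' X hX
              (fun z hz1 hz2 => hz ⟨z, hz1, hz2⟩) i j hi hj
      rcases h.meet x y with h4 | h4 | ⟨i, j, h4, h5, h6, h7⟩
      · exact R.triv X x y h2 h4
      · exact R.sym X y x (R.triv X y x h2 h4)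
      · rw [R.br X i j x y h2 h4 h5 h6 h7]
        exact key _ (P.vt i) rfl X i j hX rfl h4.symm
  exact main n

private theorem C6_val {W C Z : Type} {P : PD W C Z} {G : Type} [Group G]
    (g : JJ W C Z × (EE W C →₀ ℕ) → G) (u w : Wk W C Z) :
    P.dg.cx.val g (u ++ rv w) = P.dg.cx.val g u * (P.dg.cx.val g w)⁻¹ := by
  have h1 : (rv w : Wk W C Z) = P.dg.cx.rev w := rfl
  rw [h1]
  exact (Cx.val_append _ _ _ _).trans (by rw [Cx.val_rev])

theorem PD.Ax.generates {W C Z : Type} {P : PD W C Z} (h : P.Ax) {G : Type} [Group G] (n : ℕ)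
    (D : PiD P.dg.cx (PD.st n) G) :
    Subgroup.closure (Set.range (fun τ : P.TI n => P.dg.cx.val D.g (P.tw n τ))) = ⊤ := by
  have hmem : ∀ τ : P.TI n, P.dg.cx.val D.g (P.tw n τ) ∈
      Subgroup.closure (Set.range (fun τ : P.TI n => P.dg.cx.val D.g (P.tw n τ))) :=
    fun τ => Subgroup.subset_closure ⟨τ, rfl⟩
  have ht : ∀ e : PD.Ch C Z, P.Eqv D.g n
      (Subgroup.closure (Set.range (fun τ : P.TI n => P.dg.cx.val D.g (P.tw n τ))))
      [PD.mi e] (PD.plL e) := by
    intro e
    have h1 := hmem (.e e)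
    have h2 : P.dg.cx.val D.g (P.tw n (.e e)) =
        P.dg.cx.val D.g (P.rn (st n) [mi e]) * (P.dg.cx.val D.g (P.rn (st n) (plL e)))⁻¹ :=
      C6_val D.g _ _
    rw [h2] at h1
    exact h1
  have R := h.rules_of D.g D.sq n _ ht
  refine h.gen n D _ ht (R.claim6 h ⟨?_, ?_, ?_⟩)
  · intro X i j hk
    have h1 := hmem (.k X i j hk)
    have h2 : P.dg.cx.val D.g (P.tw n (.k X i j hk)) =
        P.dg.cx.val D.g (P.rn (st n) (X.toList ++ [i, j])) *
          (P.dg.cx.val D.g (P.rn (st n) (X.toList ++ [j, i])))⁻¹ := C6_val D.g _ _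
    rw [h2] at h1
    exact h1
  · intro f hb
    have h1 := hmem (.b f hb)
    have h2 : P.dg.cx.val D.g (P.tw n (.b f hb)) =
        P.dg.cx.val D.g (P.rn (st n) [.m f, .p f]) *
          (P.dg.cx.val D.g (P.rn (st n) [.p f, .m f]))⁻¹ := C6_val D.g _ _
    rw [h2] at h1
    exact h1
  · intro i j hq
    have h1 := hmem (.q i j hq)
    have h2 : P.dg.cx.val D.g (P.tw n (.q i j hq)) =
        P.dg.cx.val D.g (P.rn (st n) [i, j]) *
          (P.dg.cx.val D.g (P.rn (st n) [j, i]))⁻¹ := C6_val D.g _ _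
    rw [h2] at h1
    exact h1

end GB
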