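import Pool.Agent.Helper95.GB.CL.Geo

/-! # GB/CL/Chq: exchanges along chords (stub, prove in place)

* `r1`: `Ax.anc_branch` gives the branch `k` at `pv c` which contains everything beyond `v`, in particular `x` and
`m c`; `k ≠ p c` as `NP k`.  `R.br` for `i = k`, `j = p c` (`vt (p c) = pv c`, `inb_self`) gives `ok X x (p c) ↔ ok X k (p c)`
and `ok X (m c) (p c) ↔ ok X k (p c)`.
* `chq`: `R.ch X e (.inl f)`.  The conditions `okO ok X (pl e) (some (m f))` and `okO ok X (pl e) (some (p f))` hold: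
for `e = inr k` they are `True`; for `e = inl e0` they are `ok X (p e0) (m f)` and `ok X (p e0) (p f)`, which follow by
`R.sym` from `r1` (with `c = e0`, `v = pv f`, `x = m f` (`bey_m`) resp. `x = p f` (`bey_of_le`)).  The third and fourth
implications of `R.ch` give the equivalence.
-/

set_option autoImplicit false

namespace GB

open PD

variable {W C Z : Type} {P : PD W C Z} {n : ℕ} {ok : List (JJ W C Z) → JJ W C Z → JJ W C Z → Prop}

theorem Rules.r1 (R : Rules P n ok) (h : P.Ax) {X : List (JJ W C Z)} (hX : X.length + 2 ≤ n)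
    {c : C} {v : Option W} {x : JJ W C Z} (ha : P.Anc (P.pv c) v) (hx : P.bey v x)
    (hm : P.bey v (.m c)) : ok X x (.p c) ↔ ok X (.m c) (.p c) := by
  obtain ⟨k, hk1, hk2, hk3⟩ := h.anc_branch ha
  have hself : P.inb (.p c) (.p c) := ⟨le_refl _, le_refl _⟩
  have h1 := R.br X k (.p c) x (.p c) hX hk1 (hk2 c) (hk3 x hx) hself
  have h2 := R.br X k (.p c) (.m c) (.p c) hX hk1 (hk2 c) (hk3 _ hm) hself
  exact h1.trans h2.symm

theorem Rules.chq (R : Rules P n ok) (h : P.Ax) {X : List (JJ W C Z)} (hX : X.length + 2 ≤ n)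
    (hall : AllOK n ok X.length) (e : Ch C Z) (f : C)
    (he : ∀ e0, e = .inl e0 → ok X (.m e0) (.p e0) ∧ P.Anc (P.pv e0) (P.pv f) ∧
      P.bey (P.pv f) (.m e0)) :
    ok X (mi e) (.m f) ↔ ok X (mi e) (.p f) := by
  have hc := R.ch X e (.inl f) hX hall
  have h1 : okO ok X (PD.pl e) (some (PD.mi (.inl f))) ∧ okO ok X (PD.pl e) (PD.pl (.inl f)) := by
    rcases e with e0 | k
    · obtain ⟨h2, h3, h4⟩ := he e0 rfl
      have h5 : ok X (.m f) (.p e0) := (R.r1 h hX h3 (h.bey_m f) h4).2 h2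
      have h6 : P.bey (P.pv f) (.p f) := h.a1 (.p f)
      have h7 : ok X (.p f) (.p e0) := (R.r1 h hX h3 h6 h4).2 h2
      exact ⟨R.sym _ _ _ h5, R.sym _ _ _ h7⟩
    · exact ⟨trivial, trivial⟩
  constructor
  · intro h2
    exact hc.2.2.1 h2 h1.1 h1.2
  · intro h2
    exact hc.2.2.2 h2 h1.1 h1.2

end GB
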