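import Pool.Agent.Helper95.GB.GE.Defs
import Pool.Agent.Helper95.GB.PL.Ord

/-! # GB/CL/Geo: geometry of branches (stub, prove in place)

* `sep`: if `pos y ≤ pos x` then `pos i < pos j ≤ pos y ≤ pos x ≤ en i`, so `inb i y` and `inb j y`; `Ax.part` (for
`Ax.inb_bey`) gives `i = j`.
* `anc_branch`: `Anc w v` means that `w` is a strict ancestor of `v`.  `v = some b` (for `v = none` use `lo_none_le`),
`bey w (t b)` by definition (`pos (t b) = lo (some b)`, `a0`), take `k` at `w` with `inb k (t b)` (`Ax.part`);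
`bey (some b) x` gives `inb (t b) x` (`inb_t`), `inb_trans`.  `NP k`: a plus end is a leaf (`inb_leaf`).
* `np_mi`: `inb_leaf`.   * `bey_m`: `bey_of_le`, `a5`.
* `anc_of_below`: `m c` is beyond `v` and beyond `pv c`.  If `lo v ≤ lo (pv c)` then `bey_comp` gives `hi (pv c) ≤ hi v`, so
`bey v (p c)` by `bey_of_le`, contradiction.  So `lo (pv c) < lo v` and `bey_comp` gives `hi v ≤ hi (pv c)`.
* `below_of_anc`: `bey v (p c)` gives `lo v ≤ lo (pv c)` (`bey_iff`), contradiction.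
* `anc_anc`: `bey_comp` for `x` beyond `v` (hence beyond both).
* `anc_of_meet`: let `k` be a branch at `v` containing `x` and `y`, `l ≠ l'` branches at `w` with `inb l x`, `inb l' y`.
Both `v` and `w` have `x` beyond them.  If `v = w` then `l = k = l'` (`Ax.part`).  If `Anc w v` then by `anc_branch`
some branch at `w` contains both `x` and `y`, so `l = l'`.  Otherwise (`lo w ≤ lo v` leads to one of these two by
`lo_inj` and `bey_comp`) `lo v < lo w` and `bey_comp` gives `Anc v w`.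
* `comp_cases`: if not `bey v x` then `LowC`.  Otherwise take the branch `j` at `v` with `inb j x`.  If `NP j`: `low v j`
(then `LowC`) or `NL v j` (then `CompN v j x`).  If `j = p c`: `x = p c`; `bey (pv c) (m c)`, take the branch `i` of `m c`
at `v = pv c`; `NP i`; `low v i` (then `LowC`) or `NL v i` (then `CompN v i x`).
* `comp_uniq`, `comp_not_low`: `CompN v i x` means: the branch `j` of `x` at `v` is `i`, or `j = x = p c` and `i` is the
branch of `m c` at `v`; by `Ax.part` `i` is determined by `x`, it is not low, and `x` is beyond `v`.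
-/

set_option autoImplicit false

namespace GB

namespace PD

variable {W C Z : Type} (P : PD W C Z)

/-- `w` is a strict ancestor of `v` -/
def Anc (w v : Option W) : Prop := P.lo w < P.lo v ∧ P.hi v ≤ P.hi w

variable {P}

theorem Ax.sep (h : P.Ax) {i j x y : JJ W C Z} (hv : P.vt i = P.vt j) (hp : P.pos i < P.pos j)
    (hx : P.inb i x) (hy : P.inb j y) : P.pos x < P.pos y := by
  by_contra hc
  have hc' : P.pos y ≤ P.pos x := not_lt.mp hc
  have h1 : P.inb i y := ⟨hp.le.trans hy.1, hc'.trans hx.2⟩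
  have h2 := (h.part (h.inb_bey h1)).unique ⟨rfl, h1⟩ ⟨hv.symm, hy⟩
  rw [h2] at hp
  exact lt_irrefl _ hp

theorem Anc.bey {w v : Option W} {x : JJ W C Z} (hw : P.Anc w v) (hx : P.bey v x) :
    P.bey w x := ⟨hw.1.trans hx.1, hx.2.trans_le hw.2⟩

theorem Ax.anc_branch (h : P.Ax) {w v : Option W} (hw : P.Anc w v) :
    ∃ k, P.vt k = w ∧ NP k ∧ ∀ x, P.bey v x → P.inb k x := by
  obtain ⟨hw1, hw2⟩ := hw
  cases v with
  | none => exact absurd (h.lo_none_le w) (not_le.mpr hw1)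
  | some b =>
    have h0 := h.a0 (some b)
    have h1 : P.bey w (.t b) := ⟨hw1, lt_of_lt_of_le h0 hw2⟩
    obtain ⟨k, ⟨hk1, hk2⟩, -⟩ := h.part h1
    refine ⟨k, hk1, ?_, fun x hx => h.inb_trans hk2 (h.inb_t.2 (Or.inr hx))⟩
    rintro c rfl
    have h2 := (h.inb_leaf (by simp)).1 hk2
    cases h2

theorem Ax.np_mi (h : P.Ax) {k : JJ W C Z} {e : Ch C Z} (hk : P.inb k (mi e)) : NP k := by
  rintro c rfl
  have h2 := (h.inb_leaf (by simp)).1 hk
  cases e <;> cases h2

theorem Ax.bey_m (h : P.Ax) (c : C) : P.bey (P.pv c) (.m c) := by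
  obtain ⟨h1, h2, -⟩ := h.a5 c
  exact h.bey_of_le h1 h2

/-- the branch of the minus end at the vertex of the plus end -/
theorem Ax.m_branch (h : P.Ax) (c : C) : ∃ k, P.vt k = P.pv c ∧ P.inb k (.m c) ∧ NP k := by
  obtain ⟨k, ⟨hk1, hk2⟩, -⟩ := h.part (h.bey_m c)
  exact ⟨k, hk1, hk2, h.np_mi (e := .inl c) hk2⟩

theorem Ax.anc_of_below (h : P.Ax) {v : Option W} {c : C} (hb : P.belowP v (.inl c))
    (hm : P.bey v (.m c)) : P.Anc (P.pv c) v := by
  have h1 := h.bey_m c
  have h2 : P.lo (P.pv c) < P.lo v := by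
    by_contra hc
    have hc' : P.lo v ≤ P.lo (P.pv c) := not_lt.mp hc
    have h3 := h.bey_comp h1 hm hc'
    exact hb (.p c) rfl (h.bey_of_le hc' h3)
  exact ⟨h2, h.bey_comp hm h1 h2.le⟩

theorem Ax.below_of_anc (h : P.Ax) {v : Option W} {c : C} (ha : P.Anc (P.pv c) v) :
    P.belowP v (.inl c) := by
  intro x hx hb
  have hx' : JJ.p c = x := Option.some.inj hx
  subst hx'
  have h1 : P.lo v ≤ P.lo (P.pv c) := (h.bey_iff.1 hb).1
  exact absurd ha.1 (not_lt.mpr h1)

theorem Ax.anc_anc (h : P.Ax) {u w v : Option W} {x : JJ W C Z} (hu : P.Anc u v)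
    (hw : P.Anc w v) (hx : P.bey v x) (hl : P.lo u < P.lo w) : P.Anc u w := by
  exact ⟨hl, h.bey_comp (hw.bey hx) (hu.bey hx) hl.le⟩

theorem Ax.anc_of_meet (h : P.Ax) {k l l' x y : JJ W C Z} (hx : P.inb k x) (hy : P.inb k y)
    (hl : P.vt l = P.vt l') (hne : l ≠ l') (hx' : P.inb l x) (hy' : P.inb l' y) :
    P.Anc (P.vt k) (P.vt l) := by
  have hkx := h.inb_bey hx
  have hky := h.inb_bey hy
  have hlx := h.inb_bey hx'
  have hly := h.inb_bey hy'
  rw [← hl] at hly
  rcases lt_trichotomy (P.lo (P.vt k)) (P.lo (P.vt l)) with h1 | h1 | h1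
  · exact ⟨h1, h.bey_comp hlx hkx h1.le⟩
  · exfalso
    have h2 : P.vt k = P.vt l := h.lo_inj h1
    have h3 := (h.part hkx).unique ⟨rfl, hx⟩ ⟨h2.symm, hx'⟩
    have h4 := (h.part hky).unique ⟨rfl, hy⟩ ⟨hl.symm.trans h2.symm, hy'⟩
    exact hne (h3.symm.trans h4)
  · exfalso
    have h2 : P.Anc (P.vt l) (P.vt k) := ⟨h1, h.bey_comp hkx hlx h1.le⟩
    obtain ⟨j, hj1, -, hj2⟩ := h.anc_branch h2
    have h3 := (h.part hlx).unique ⟨rfl, hx'⟩ ⟨hj1, hj2 x hkx⟩
    have h4 := (h.part hly).unique ⟨hl.symm, hy'⟩ ⟨hj1, hj2 y hky⟩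
    exact hne (h3.trans h4.symm)

theorem Ax.comp_cases (h : P.Ax) (v : Option W) (x : JJ W C Z) :
    P.LowC v x ∨ ∃ i, P.CompN v i x := by
  by_cases hb : P.bey v x
  · obtain ⟨j, ⟨hj1, hj2⟩, -⟩ := h.part hb
    by_cases hn : ∀ c, j ≠ .p c
    · by_cases hl : P.low v j
      · exact Or.inl (Or.inr ⟨j, hj1, hj2, Or.inl ⟨hn, hl⟩⟩)
      · exact Or.inr ⟨j, ⟨hj1, hn, hl⟩, Or.inl hj2⟩
    · obtain ⟨c, hc⟩ := not_forall.mp hn
      have hjc : j = .p c := not_not.mp hc
      subst hjc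
      have hx : x = .p c := (h.inb_leaf (by simp)).1 hj2
      have hv : P.pv c = v := hj1
      obtain ⟨k, hk1, hk2, hk3⟩ := h.m_branch c
      rw [hv] at hk1
      by_cases hl : P.low v k
      · exact Or.inl (Or.inr ⟨.p c, hj1, hj2, Or.inr ⟨c, k, rfl, hk1, hk2, hl⟩⟩)
      · refine Or.inr ⟨k, ⟨hk1, hk3, hl⟩, Or.inr ⟨c, hx, ?_, hk2⟩⟩
        rw [hx]
        exact hj1
  · exact Or.inl (Or.inl hb)

theorem Ax.comp_uniq (h : P.Ax) {v : Option W} {i i' x : JJ W C Z} (hi : P.CompN v i x)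
    (hi' : P.CompN v i' x) : i = i' := by
  obtain ⟨⟨hv, hn, -⟩, h1⟩ := hi
  obtain ⟨⟨hv', hn', -⟩, h1'⟩ := hi'
  rcases h1 with h2 | ⟨c, hx, hxv, hm⟩
  · have hb : P.bey v x := by
      have := h.inb_bey h2
      rwa [hv] at this
    rcases h1' with h2' | ⟨c, hx, hxv, hm⟩
    · exact (h.part hb).unique ⟨hv, h2⟩ ⟨hv', h2'⟩
    · exfalso
      have h3 := (h.part hb).unique ⟨hv, h2⟩ ⟨hxv, h.inb_self x⟩
      exact hn c (h3.trans hx)
  · rcases h1' with h2' | ⟨c', hx', hxv', hm'⟩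
    · exfalso
      have hb : P.bey v x := by
        have := h.inb_bey h2'
        rwa [hv'] at this
      have h3 := (h.part hb).unique ⟨hv', h2'⟩ ⟨hxv, h.inb_self x⟩
      exact hn' c (h3.trans hx)
    · have hcc : c = c' := by
        have := hx.symm.trans hx'
        injection this
      subst hcc
      have hb : P.bey v (.m c) := by
        have := h.inb_bey hm
        rwa [hv] at this
      exact (h.part hb).unique ⟨hv, hm⟩ ⟨hv', hm'⟩

theorem Ax.comp_not_low (h : P.Ax) {v : Option W} {i x : JJ W C Z} (hi : P.CompN v i x) :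
    ¬ P.LowC v x := by
  obtain ⟨⟨hv, hn, hl⟩, h1⟩ := hi
  rcases h1 with h2 | ⟨c, hx, hxv, hm⟩
  · have hb : P.bey v x := by
      have := h.inb_bey h2
      rwa [hv] at this
    rintro (h3 | ⟨j, hj1, hj2, h3⟩)
    · exact h3 hb
    · have h4 := (h.part hb).unique ⟨hj1, hj2⟩ ⟨hv, h2⟩
      rcases h3 with ⟨-, h5⟩ | ⟨c, k, h5, -, -, -⟩
      · rw [h4] at h5
        exact hl h5
      · exact hn c (h4.symm.trans h5)
  · have hb : P.bey v x := by
      have := h.inb_bey (h.inb_self x)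
      rwa [hxv] at this
    rintro (h3 | ⟨j, hj1, hj2, h3⟩)
    · exact h3 hb
    · have h4 := (h.part hb).unique ⟨hj1, hj2⟩ ⟨hxv, h.inb_self x⟩
      rcases h3 with ⟨h5, -⟩ | ⟨c', k, h5, hk1, hk2, hk3⟩
      · exact h5 c (h4.trans hx)
      · have hcc : c' = c := by
          have := h5.symm.trans (h4.trans hx)
          injection this
        subst hcc
        have hb' : P.bey v (.m c') := by
          have := h.inb_bey hm
          rwa [hv] at this
        have h6 := (h.part hb').unique ⟨hk1, hk2⟩ ⟨hv, hm⟩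
        rw [h6] at hk3
        exact hl hk3

end PD

end GB
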